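import Pool.Agent.N493.RF

set_option autoImplicit false

/-!
# Is `π` a rational function of `e`?

If one of the numbers `π + e`, `π - e`, `π e`, `π / e` is rational, then `π` is a linear fractional
function of `e` with rational coefficients. We consider near relations `|P(e) + Q(e) ξ| ≤ X ^ (-w)`
with integer polynomials `P`, `Q` of degree at most `K` and with coefficients at most `X`, for an
arbitrary real number `ξ`; for `w = 2 K + 1` (up to a constant) they exist at all scales `X` by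
Dirichlet's theorem. For `w > 4 K + 1` all the near relations at a large scale define one rational
function `-P / Q`, and near relations at all scales of an interval `[Y, Z]` come from one near
relation of height at most `Y`; `π` is a rational function of `e` of degree at most `K` if and only
if there are near relations at all large scales.
-/

namespace Pool.Agent.Results.MP_a2f59b_nt.PiAsRationalFunctionOfE

open Polynomial

/-- the value `P(e) + Q(e) ξ` of `v = (P, Q)` -/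
noncomputable def value (ξ : ℝ) (v : ℤ[X] × ℤ[X]) : ℝ :=
  aeval (Real.exp 1) v.1 + aeval (Real.exp 1) v.2 * ξ

/-- `P` and `Q` have degree at most `K` and coefficients of absolute value at most `H` -/
def Bounded (K : ℕ) (H : ℝ) (v : ℤ[X] × ℤ[X]) : Prop :=
  (v.1.natDegree ≤ K ∧ ∀ j, |(v.1.coeff j : ℝ)| ≤ H) ∧
    (v.2.natDegree ≤ K ∧ ∀ j, |(v.2.coeff j : ℝ)| ≤ H)

/-- `(P, Q) ≠ 0` is a near relation of `ξ` at the scale `X`, with the exponent `w`: the degrees are at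
most `K`, the coefficients are at most `X`, and `|P(e) + Q(e) ξ| ≤ X ^ (-w)` -/
def Near (K : ℕ) (w ξ X : ℝ) (v : ℤ[X] × ℤ[X]) : Prop :=
  v ≠ 0 ∧ Bounded K X v ∧ |value ξ v| ≤ X ^ (-w)

theorem one_scale (K : ℕ) (w : ℝ) (hw : 4 * (K : ℝ) + 1 < w) : ∃ X₀ : ℝ, ∀ ξ X : ℝ, X₀ ≤ X →
    ∀ u v : ℤ[X] × ℤ[X], Near K w ξ X u → Near K w ξ X v → u.2 ≠ 0 ∧ u.1 * v.2 = v.1 * u.2 := by
  obtain ⟨Y₀, hY₀, hstep, hne, -⟩ := Pool.Agent.N493.RF.step K w 1 hw one_pos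
  refine ⟨Y₀, fun ξ X hX u v hu hv => ⟨hne ξ X u hX hu.2.1 hu.1 hu.2.2, ?_⟩⟩
  exact hstep ξ X X u v hX le_rfl (by linarith) hu.2.1 hv.2.1 hu.2.2 hv.2.2

theorem interval (K : ℕ) (w : ℝ) (hw : 4 * (K : ℝ) + 1 < w) (η : ℝ) (hη : 0 < η) :
    ∃ Y₀ : ℝ, 1 ≤ Y₀ ∧ ∀ ξ Y Z : ℝ, Y₀ ≤ Y → Y ≤ Z →
      (∀ X : ℝ, Y ≤ X → X ≤ Z → ∃ v, Near K w ξ X v) →
      ∀ v, Near K w ξ Y v → v.2 ≠ 0 ∧ |value ξ v| ≤ Y * Z ^ (-(w - K) + η) := by
  obtain ⟨Y₀, hY₀, h⟩ := Pool.Agent.N493.RF.interval K w η hw hη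
  exact ⟨Y₀, hY₀, fun ξ Y Z hY hZ hU v hv => h ξ Y Z hY hZ (fun X hX hX' => hU X hX hX') v hv.1 hv.2.1
    hv.2.2⟩

theorem exact (K : ℕ) (w : ℝ) (hw : 4 * (K : ℝ) + 1 < w) : ∃ Y₀ : ℝ, 1 ≤ Y₀ ∧ ∀ ξ Y : ℝ, Y₀ ≤ Y →
    (∀ X : ℝ, Y ≤ X → ∃ v, Near K w ξ X v) →
    ∃ P Q : ℤ[X], Bounded K Y (P, Q) ∧ aeval (Real.exp 1) Q ≠ 0 ∧
      ξ = aeval (Real.exp 1) P / aeval (Real.exp 1) Q := by
  have hK0 : (0 : ℝ) ≤ K := Nat.cast_nonneg K
  obtain ⟨Y₀, hY₀, h⟩ := interval K w hw 1 one_pos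
  obtain ⟨Y₁, hY₁, -, -, hlow⟩ := Pool.Agent.N493.RF.step K w 1 hw one_pos
  refine ⟨max Y₀ Y₁, hY₀.trans (le_max_left _ _), fun ξ Y hY hU => ?_⟩
  have hYY := (le_max_left _ _).trans hY
  have hY1 : 1 ≤ Y := hY₀.trans hYY
  obtain ⟨v, hv⟩ := hU Y le_rfl
  have hv2 := (h ξ Y Y hYY le_rfl (fun X hX _ => hU X hX) v hv).1
  have hQ : aeval (Real.exp 1) v.2 ≠ 0 := by
    have h1 := hlow Y v.2 ((le_max_right _ _).trans hY) hv.2.1.2.1 hv.2.1.2.2 hv2
    intro h0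
    rw [h0, abs_zero] at h1
    have h2 : 0 < Pool.Agent.N493.RF.M K * Y ^ (-((K : ℝ) + 1)) := by
      have := Pool.Agent.N493.RF.M_pos K
      positivity
    linarith
  have h0 : value ξ v = 0 := by
    by_contra hne
    have hpos : 0 < |value ξ v| / Y := by
      have := abs_pos.2 hne
      positivity
    have hKw : 0 < w - K - 1 := by linarith
    have htend := (tendsto_rpow_neg_atTop hKw)
    obtain ⟨Z, hZ1, hZ2⟩ := ((htend.eventually_lt_const hpos).and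
      (Filter.eventually_ge_atTop Y)).exists
    have h3 := (h ξ Y Z hYY hZ2 (fun X hX _ => hU X hX) v hv).2
    have e1 : -(w - K) + 1 = -(w - K - 1) := by ring
    rw [e1] at h3
    rw [lt_div_iff₀ (by linarith)] at hZ1
    linarith
  refine ⟨-v.1, v.2, ⟨⟨by rw [natDegree_neg]; exact hv.2.1.1.1, fun j => ?_⟩, hv.2.1.2⟩, hQ, ?_⟩
  · rw [coeff_neg, Int.cast_neg, abs_neg]
    exact hv.2.1.1.2 j
  · rw [eq_div_iff hQ, map_neg]
    unfold value at h0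
    linarith

/-- Let `w > 4 K + 1`. (1) For all large `X` and all real `ξ`, any two near relations `(P, Q)`,
`(P', Q')` of `ξ` at the scale `X` satisfy `Q ≠ 0` and `P Q' = P' Q`. (2) Let `η > 0`. For all large
`Y`, all `Z ≥ Y` and all real `ξ`: if there are near relations at all scales `X` with `Y ≤ X ≤ Z`,
then all near relations at the scale `Y` satisfy `Q ≠ 0` and
`|P(e) + Q(e) ξ| ≤ Y * Z ^ (-(w - K) + η)`. (3) If there are near relations at all scales `X ≥ Y`,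
then `ξ = P(e) / Q(e)` for integer polynomials of degree at most `K` and height at most `Y`. (4) `π` is
of the form `P(e) / Q(e)` with integer polynomials of degree at most `K` if and only if there are near
relations of `π` at all large scales. -/
theorem result (K : ℕ) (w : ℝ) (hw : 4 * (K : ℝ) + 1 < w) :
    (∃ X₀ : ℝ, ∀ ξ X : ℝ, X₀ ≤ X → ∀ u v : ℤ[X] × ℤ[X], Near K w ξ X u → Near K w ξ X v →
      u.2 ≠ 0 ∧ u.1 * v.2 = v.1 * u.2) ∧
    (∀ η : ℝ, 0 < η → ∃ Y₀ : ℝ, 1 ≤ Y₀ ∧ ∀ ξ Y Z : ℝ, Y₀ ≤ Y → Y ≤ Z →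
      (∀ X : ℝ, Y ≤ X → X ≤ Z → ∃ v, Near K w ξ X v) →
      ∀ v, Near K w ξ Y v → v.2 ≠ 0 ∧ |value ξ v| ≤ Y * Z ^ (-(w - K) + η)) ∧
    (∃ Y₀ : ℝ, 1 ≤ Y₀ ∧ ∀ ξ Y : ℝ, Y₀ ≤ Y → (∀ X : ℝ, Y ≤ X → ∃ v, Near K w ξ X v) →
      ∃ P Q : ℤ[X], Bounded K Y (P, Q) ∧ aeval (Real.exp 1) Q ≠ 0 ∧
        ξ = aeval (Real.exp 1) P / aeval (Real.exp 1) Q) ∧
    ((∃ P Q : ℤ[X], P.natDegree ≤ K ∧ Q.natDegree ≤ K ∧ aeval (Real.exp 1) Q ≠ 0 ∧
        Real.pi = aeval (Real.exp 1) P / aeval (Real.exp 1) Q) ↔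
      ∃ Y : ℝ, ∀ X : ℝ, Y ≤ X → ∃ v, Near K w Real.pi X v) := by
  refine ⟨one_scale K w hw, interval K w hw, exact K w hw, ?_, ?_⟩
  · rintro ⟨P, Q, hP, hQ, hQ0, hπ⟩
    obtain ⟨B, hB⟩ : ∃ B : ℝ, ∀ j, |(P.coeff j : ℝ)| ≤ B ∧ |(Q.coeff j : ℝ)| ≤ B := by
      refine ⟨∑ i ∈ Finset.range (K + 1), (|(P.coeff i : ℝ)| + |(Q.coeff i : ℝ)|), fun j => ?_⟩
      by_cases hj : j < K + 1
      · have h1 := Finset.single_le_sum
          (f := fun i => |(P.coeff i : ℝ)| + |(Q.coeff i : ℝ)|)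
          (fun i _ => by positivity) (Finset.mem_range.2 hj)
        constructor
        · linarith [abs_nonneg (Q.coeff j : ℝ)]
        · linarith [abs_nonneg (P.coeff j : ℝ)]
      · rw [coeff_eq_zero_of_natDegree_lt (by omega : P.natDegree < j),
          coeff_eq_zero_of_natDegree_lt (by omega : Q.natDegree < j), Int.cast_zero, abs_zero]
        have : 0 ≤ ∑ i ∈ Finset.range (K + 1), (|(P.coeff i : ℝ)| + |(Q.coeff i : ℝ)|) :=
          Finset.sum_nonneg fun i _ => by positivity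
        exact ⟨this, this⟩
    have hB0 : 0 ≤ B := (abs_nonneg _).trans (hB 0).1
    refine ⟨B, fun X hX => ⟨(-P, Q), ?_, ⟨⟨by simpa using hP, fun j => ?_⟩, hQ, fun j => ?_⟩, ?_⟩⟩
    · intro h0
      apply hQ0
      have h1 : Q = 0 := congrArg Prod.snd h0
      rw [h1, map_zero]
    · simp only [coeff_neg, Int.cast_neg, abs_neg]
      exact (hB j).1.trans hX
    · exact (hB j).2.trans hX
    · have : value Real.pi (-P, Q) = 0 := by
        unfold value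
        rw [eq_div_iff hQ0] at hπ
        simp only [map_neg]
        linarith
      rw [this, abs_zero]
      have : 0 ≤ X := hB0.trans hX
      positivity
  · rintro ⟨Y, hY⟩
    obtain ⟨Y₀, -, h⟩ := exact K w hw
    obtain ⟨P, Q, hPQ, hQ0, hπ⟩ := h Real.pi (max Y₀ Y) (le_max_left _ _)
      fun X hX => hY X ((le_max_right _ _).trans hX)
    exact ⟨P, Q, hPQ.1.1, hPQ.2.1, hQ0, hπ⟩

end Pool.Agent.Results.MP_a2f59b_nt.PiAsRationalFunctionOfE
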