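import Pool.Agent.N743.Alg
import Pool.Agent.N743.Rat

/-!
# The scale dichotomy for `π + e`, `π - e`, `π e`, `π / e`

For a real number `t` let `fourT t` be the four numbers `t + e`, `t - e`, `t e`, `t / e`.

A number `u` is near at the scale `X` (with parameters `d`, `θ`) if some nonzero integer polynomial
of degree at most `d` with coefficients at most `X ^ θ` has a value at most `1 / X` at `u`
(`AlgNear`); for rational approximations: if some fraction with denominator at most `X ^ θ` lies
within `1 / X` of `u` (`RatNear`). We show, for small `θ`: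

* At every large scale at most one of the four numbers is near.
* If one of the four numbers is algebraic of degree at most `d` (rational) then it is near at all
  large scales and the three other numbers are near at no large scale.
* Otherwise every large scale `X` at which one of the numbers, `x` say, is near is followed by a
  scale `Z ≥ X` such that between `X` and `Z` no other of the four numbers is near, and between `Z`
  and `Z ^ M` none of the four numbers is near. In particular there are arbitrarily large `Z` such
  that none of the four numbers is near at any scale `Y` with `Z < Y ≤ Z ^ M`.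

So one of the four numbers is algebraic of degree at most `d` (rational) if and only if at every
large scale at least one of the four numbers is near. For rational approximations `θ` and `M` are
explicit: `3 θ (M + 1) < 1` suffices, for instance `θ = 1 / 10`, `M = 2`.
-/

set_option autoImplicit false

namespace Pool.Agent.Results.MP_a2f59b_nt.ScaleDichotomy

open Pool.Agent.N743

/-- **The scale dichotomy.** (1) For algebraic approximations of the four numbers
`t + e`, `t - e`, `t e`, `t / e`, where `t` is a real number different from `0`, `e` and `-e`.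
(2) For rational approximations of these numbers, with explicit parameters.
(3) The numbers `π + e`, `π - e`, `π e`, `π / e`, rational approximations, `θ = 1 / 10`, `M = 2`.
(4) For algebraic approximations of a finite family of real numbers any two of which generate a ring
over which `ξ` is algebraic, where `ξ` is `e`, `π` or the logarithm of a positive rational number
different from `1`. -/
theorem result :
    (∀ t : ℝ, t ≠ 0 → t ≠ Real.exp 1 → t ≠ - Real.exp 1 → ∀ (d : ℕ) (M : ℝ), 1 < M →
      ∃ θ₀ : ℝ, 0 < θ₀ ∧ ∀ θ : ℝ, 0 < θ → θ ≤ θ₀ →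
        Dichotomy (fun i => AlgDeg d (fourT t i)) (fun X i => AlgNear d θ X (fourT t i)) M) ∧
    (∀ t : ℝ, t ≠ 0 → t ≠ Real.exp 1 → t ≠ - Real.exp 1 → ∀ θ M : ℝ, 0 < θ → 1 < M →
      3 * θ * (M + 1) < 1 →
        Dichotomy (fun i => IsRat (fourT t i)) (fun X i => RatNear θ X (fourT t i)) M) ∧
    Dichotomy (fun i => IsRat (fourT Real.pi i)) (fun X i => RatNear (1 / 10) X (fourT Real.pi i)) 2 ∧
    (∀ ξ : ℝ, (ξ = Real.exp 1 ∨ ξ = Real.pi ∨ ∃ q : ℚ, 0 < q ∧ q ≠ 1 ∧ ξ = Real.log q) →
      ∀ (ι : Type) [Finite ι] (x : ι → ℝ),
      (∀ i j, i ≠ j → IsAlgebraic (Algebra.adjoin ℤ ({x i, x j} : Set ℝ)) ξ) →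
      ∀ (d : ℕ) (M : ℝ), 1 < M → ∃ θ₀ : ℝ, 0 < θ₀ ∧ ∀ θ : ℝ, 0 < θ → θ ≤ θ₀ →
        Dichotomy (fun i => AlgDeg d (x i)) (fun X i => AlgNear d θ X (x i)) M) := by
  have h2 : ∀ t : ℝ, t ≠ 0 → t ≠ Real.exp 1 → t ≠ - Real.exp 1 → ∀ θ M : ℝ, 0 < θ → 1 < M →
      3 * θ * (M + 1) < 1 →
        Dichotomy (fun i => IsRat (fourT t i)) (fun X i => RatNear θ X (fourT t i)) M :=
    fun t h0 h1 h2 θ M hθ hM hMθ => dichotomy_rat (fourT t) (four_rat t h0 h1 h2) θ M hθ hM hMθ
  have hpi3 := Real.pi_gt_three
  have he3 := Real.exp_one_lt_three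
  have he0 := Real.exp_pos 1
  refine ⟨fun t h0 h1 h2 d M hM => ?_, h2, ?_, ?_⟩
  · exact dichotomy_alg (fourT t) (fun i j hij => Pool.Agent.R473.JC.four_t t h0 h1 h2 i j hij) d M hM
  · exact h2 Real.pi (by linarith) (by linarith) (by linarith) (1 / 10) 2 (by norm_num) (by norm_num)
      (by norm_num)
  · intro ξ hξ ι _ x h d M hM
    exact dichotomy_alg x (fun i j hij => Pool.Agent.R473.JC.jointR_of_alg ξ
      (Pool.Agent.R473.JC.measT_three ξ hξ) _ _ (h i j hij)) d M hM

end Pool.Agent.Results.MP_a2f59b_nt.ScaleDichotomy
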