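import Mathlib
import Pool.Agent.N13.PF.Main
import Pool.Agent.H699R2.ExpTrans

set_option autoImplicit false

/-!
# `e`, `π`, `π / e` and the truncated Fourier integrals of `1 / (1 + x ^ 2)`

For `y ≥ 0` and `0 < φ ≤ π / 2` let `P(y, φ)` be the integral of `cos (y x) / (1 + x ^ 2)` over the real
numbers `x` with `|arctan x| < φ` (that is `|x| < tan φ` if `φ < π / 2`, and all `x` if `φ = π / 2`).

For complex numbers `a_1, …, a_n` with `a_n ≠ 0` let `I(a_1, …, a_n)` be the iterated integral of the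
forms `ω_{a_1}(t_1), …, ω_{a_n}(t_n)` over `1 > t_1 > … > t_n > 0`, where `ω_0 = dt / t` and
`ω_a = (exp (a t) - 1) dt / t` for `a ≠ 0`. Let `𝓕` be the field which is generated by all algebraic
numbers, all numbers `exp b`, `b` algebraic, and all numbers `I(a_1, …, a_n)` with algebraic
`a_1, …, a_n` such that not (`Re a_1 > 0` and `Im a_1 > 0`). (The condition concerns `a_1` only.)

(1) `P(0, φ) = 2 φ` and `P(y, π/2) = π exp (-y)`. So `P(1, π/2) = π / e` and `P(0, π/2) = π`.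

Let `𝓝` be the following set of numbers with names: the number `π`, and the numbers `P(y, φ)` for all
real algebraic `y > 0` and all `φ` in `(0, π/2)` for which `φ / π` is rational.

(2) At most one of the numbers in `𝓝` is algebraic over `𝓕`. For all numbers `v` in `𝓝` but at most one,
`e` and `v` are algebraically independent, and `v + e`, `v - e`, `v e`, `v / e` are transcendental.

(3) If `π` is algebraic over `𝓕`, for example if one of the numbers `π + e`, `π - e`, `π e`, `π / e` is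
algebraic, then all the numbers `P(y, φ)` in `𝓝` are algebraically independent over `𝓕`.

(4) Let `z_1, …, z_r` be complex numbers and `Φ` a set of numbers `φ` in `(0, π/2)` for which `tan φ` is
algebraic and `φ` is algebraic over `𝓕(z_1, …, z_r)`. At most `r` of the numbers `z_1, …, z_r` and
`P(y, φ)`, `φ` in `Φ`, `y > 0` real algebraic, are algebraic over `𝓕`, and for all finite sets `A` of
such pairs `(y, φ)` the field `𝓕(z_1, …, z_r, P(y, φ) : (y, φ) ∈ A)` has transcendence degree at least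
`|A|` over `𝓕`.
-/

namespace Pool.Agent.Results.MP_a2f59b_nt.TruncatedFourierIntegrals

open Set MeasureTheory

/-- `P(y, φ)` -/
noncomputable def P (y φ : ℝ) : ℝ := ∫ x in {x : ℝ | |Real.arctan x| < φ}, Real.cos (y * x) / (1 + x ^ 2)

/-- the iterated integral of `ω_{a_1}(t_1), …, ω_{a_n}(t_n)` over `t > t_1 > … > t_n > 0` -/
noncomputable def iterated : List ℂ → ℝ → ℂ
  | [], _ => 1
  | a :: v, t => ∫ s in (0 : ℝ)..t, (if a = 0 then 1 else Complex.exp (a * s) - 1) * iterated v s / s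

/-- `I(a_1, …, a_n)` -/
noncomputable def I (w : List ℂ) : ℂ := iterated w 1

/-- the entries are algebraic, the last one is not zero, and not (`Re a_1 > 0` and `Im a_1 > 0`) -/
def Admissible (w : List ℂ) : Prop :=
  (∀ a ∈ w, IsAlgebraic ℚ a) ∧ (∀ h : w ≠ [], w.getLast h ≠ 0) ∧ ∀ h : w ≠ [], ¬ (0 < (w.head h).re ∧ 0 < (w.head h).im)

/-- the field `𝓕` -/
noncomputable def baseField : IntermediateField ℚ ℂ := IntermediateField.adjoin ℚ
  ({z | IsAlgebraic ℚ z} ∪ {z | ∃ b : ℂ, IsAlgebraic ℚ b ∧ z = Complex.exp b} ∪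
    {z | ∃ w : List ℂ, Admissible w ∧ z = I w})

/-- `z` is algebraic over `𝓕` -/
def AlgebraicOver (z : ℂ) : Prop := IsAlgebraic baseField z

/-- `z` is algebraic over `𝓕(z_1, …, z_r)` -/
def AlgebraicOverAnd {r : ℕ} (z : Fin r → ℂ) (w : ℂ) : Prop :=
  IsAlgebraic (IntermediateField.adjoin baseField (range z)) w

/-- the pairs `(y, φ)` with `y > 0` real algebraic, `φ` in `(0, π/2)` and `tan φ` algebraic -/
def pairs : Set (ℝ × ℝ) :=
  {p | 0 < p.1 ∧ IsAlgebraic ℚ p.1 ∧ 0 < p.2 ∧ p.2 < Real.pi / 2 ∧ IsAlgebraic ℚ (Real.tan p.2)}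

/-- the pairs `(y, φ)` with `y > 0` real algebraic, `φ` in `(0, π/2)` and `φ / π` rational -/
def piPairs : Set (ℝ × ℝ) :=
  {p | 0 < p.1 ∧ IsAlgebraic ℚ p.1 ∧ 0 < p.2 ∧ p.2 < Real.pi / 2 ∧ ∃ q : ℚ, p.2 = q * Real.pi}

/-- the names of the numbers in `𝓝`: `none` is the name of `π` and `(y, φ)` the name of `P(y, φ)` -/
def names : Set (Option (ℝ × ℝ)) := {o | ∀ p, o = some p → p ∈ piPairs}

/-- the number with a given name -/
noncomputable def number (o : Option (ℝ × ℝ)) : ℝ := o.elim Real.pi fun p => P p.1 p.2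

/-- one of the numbers `v + e`, `v - e`, `v e`, `v / e` is algebraic -/
def Special (v : ℝ) : Prop := IsAlgebraic ℚ (v + Real.exp 1) ∨ IsAlgebraic ℚ (v - Real.exp 1) ∨
  IsAlgebraic ℚ (v * Real.exp 1) ∨ IsAlgebraic ℚ (v / Real.exp 1)

/-- the names of those of the numbers `z_1, …, z_r` and `P(y, φ)`, `φ` in `Φ`, `y > 0` real algebraic,
which are algebraic over `𝓕` -/
def algebraicNames {r : ℕ} (z : Fin r → ℂ) (Φ : Set ℝ) : Set (Fin r ⊕ (ℝ × ℝ)) :=
  {n | Sum.elim (fun j => AlgebraicOver (z j)) (fun p => p.2 ∈ Φ ∧ p ∈ pairs ∧ AlgebraicOver (P p.1 p.2)) n}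

theorem P_eq : P = Pool.Agent.N13.PF.P := rfl

open Pool.Agent.N902.EW in
theorem iterated_eq (w : List ℂ) : ∀ t : ℝ, iterated w t = II w t := by
  induction w with
  | nil => intro t; rfl
  | cons a v ih =>
    intro t
    rw [iterated, II]
    refine intervalIntegral.integral_congr fun s _ => ?_
    show (if a = 0 then 1 else Complex.exp (a * s) - 1) * iterated v s / s = _
    rw [ih]

open Pool.Agent.N902.EW Pool.Agent.N13.PF in
theorem baseField_eq : baseField = FF := by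
  rw [baseField, FF, GS]
  refine le_antisymm (IntermediateField.adjoin_le_iff.2 ?_) (IntermediateField.adjoin_le_iff.2 ?_)
  · rintro z (hz | ⟨w, hw, rfl⟩)
    · exact IntermediateField.subset_adjoin _ _ (Or.inl hz)
    · rcases w with _ | ⟨a, v⟩
      · have : I [] = 1 := rfl
        rw [this]
        exact one_mem _
      · exact IntermediateField.subset_adjoin _ _ (Or.inr ⟨a, v, hw.2.2 (List.cons_ne_nil _ _), ⟨hw.1, hw.2.1⟩,
          iterated_eq _ 1⟩)
  · rintro z (hz | ⟨a, v, ha, hw, rfl⟩)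
    · exact IntermediateField.subset_adjoin _ _ (Or.inl hz)
    · exact IntermediateField.subset_adjoin _ _ (Or.inr ⟨a :: v, ⟨hw.1, hw.2, fun _ => ha⟩, (iterated_eq _ 1).symm⟩)

theorem over_iff (z : ℂ) : AlgebraicOver z ↔ IsAlgebraic Pool.Agent.N13.PF.FF z := by
  unfold AlgebraicOver
  rw [baseField_eq]

theorem overAnd_iff {r : ℕ} (y : Fin r → ℂ) (z : ℂ) :
    AlgebraicOverAnd y z ↔ IsAlgebraic (IntermediateField.adjoin Pool.Agent.N13.PF.FF (range y)) z := by
  unfold AlgebraicOverAnd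
  rw [baseField_eq]

theorem exp_mem : Complex.exp 1 ∈ baseField :=
  IntermediateField.subset_adjoin _ _ (Or.inl (Or.inr ⟨1, isAlgebraic_one, rfl⟩))

/-- the tangents of rational multiples of `π` are algebraic -/
theorem alg_tan {φ : ℝ} (q : ℚ) (hq : φ = q * Real.pi) : IsAlgebraic ℚ (Real.tan φ) := by
  have hI : IsAlgebraic ℚ Complex.I := Pool.Agent.N13.PF.alg_I
  have h1 : IsAlgebraic ℚ (Complex.exp (φ * Complex.I)) := by
    have hd : (q.den : ℂ) ≠ 0 := by exact_mod_cast q.den_nz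
    have h4 : Complex.exp (φ * Complex.I) ^ (2 * q.den) = 1 := by
      rw [← Complex.exp_nat_mul, Complex.exp_eq_one_iff]
      refine ⟨q.num, ?_⟩
      rw [hq]
      have : (q : ℂ) = (q.num : ℂ) / (q.den : ℂ) := by exact_mod_cast (Rat.num_div_den q).symm
      push_cast
      rw [this]
      field_simp
    refine IsAlgebraic.of_pow (n := 2 * q.den) (by have := q.den_pos; omega) ?_
    rw [h4]
    exact isAlgebraic_one
  have h2 : IsAlgebraic ℚ (Complex.exp (-φ * Complex.I)) := by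
    rw [neg_mul, Complex.exp_neg]
    exact h1.inv
  have h3 : IsAlgebraic ℚ ((Real.tan φ : ℝ) : ℂ) := by
    rw [Complex.ofReal_tan, Complex.tan_eq_sin_div_cos, Complex.sin, Complex.cos]
    exact (((h2.sub h1).mul hI).mul (isAlgebraic_algebraMap (2 : ℚ)).inv).mul
      ((h1.add h2).mul (isAlgebraic_algebraMap (2 : ℚ)).inv).inv
  exact (isAlgebraic_algebraMap_iff (algebraMap ℝ ℂ).injective).1 h3

theorem piPairs_sub {p : ℝ × ℝ} (hp : p ∈ piPairs) : p ∈ pairs := by
  obtain ⟨h0, h1, h2, h3, ⟨q, hq⟩⟩ := hp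
  exact ⟨h0, h1, h2, h3, alg_tan q hq⟩

theorem names_le {r : ℕ} (y : Fin r → ℂ) (Θ : Set ℝ) (hΘ : ∀ θ ∈ Θ, AlgebraicOverAnd y (θ : ℂ)) :
    (algebraicNames y Θ).encard ≤ (r : ℕ∞) := by
  refine le_trans ?_ (Pool.Agent.N13.PF.count y Θ fun θ hθ => (overAnd_iff _ _).1 (hΘ θ hθ))
  let g : Fin r ⊕ {p : ℝ × ℝ // p ∈ Pool.Agent.N13.PF.Nm ∧ p.2 ∈ Θ} → Fin r ⊕ (ℝ × ℝ) := Sum.map id Subtype.val
  have hsub : algebraicNames y Θ ⊆ g '' {n : Fin r ⊕ {p : ℝ × ℝ // p ∈ Pool.Agent.N13.PF.Nm ∧ p.2 ∈ Θ} |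
      Sum.elim (fun j => IsAlgebraic Pool.Agent.N13.PF.FF (y j))
        (fun p => IsAlgebraic Pool.Agent.N13.PF.FF ((Pool.Agent.N13.PF.P p.1.1 p.1.2 : ℝ) : ℂ)) n} := by
    rintro (j | p) hn
    · have hn' : AlgebraicOver (y j) := hn
      rw [over_iff] at hn'
      exact ⟨Sum.inl j, hn', rfl⟩
    · have hn' : p.2 ∈ Θ ∧ p ∈ pairs ∧ AlgebraicOver (P p.1 p.2) := hn
      rw [over_iff, P_eq] at hn'
      exact ⟨Sum.inr ⟨p, hn'.2.1, hn'.1⟩, hn'.2.2, rfl⟩
  exact (encard_le_encard hsub).trans (encard_image_le _ _)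

theorem alg_mult {p : ℝ × ℝ} (hp : p ∈ piPairs) {r : ℕ} (y : Fin r → ℂ) (hy : AlgebraicOverAnd y (Real.pi : ℂ)) :
    AlgebraicOverAnd y (p.2 : ℂ) := by
  obtain ⟨_, _, _, _, ⟨q, hq⟩⟩ := hp
  rw [hq]
  push_cast
  exact IsAlgebraic.mul (by
    have : (q : ℂ) = algebraMap ℚ ℂ q := by simp
    rw [this]
    exact isAlgebraic_algebraMap (R := IntermediateField.adjoin baseField (range y)) (algebraMap ℚ _ q)) hy

/-- at most one of the numbers is algebraic over the base field -/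
theorem one_le : {o ∈ names | AlgebraicOver (number o)}.encard ≤ 1 := by
  have hy : AlgebraicOverAnd (fun _ : Fin 1 => (Real.pi : ℂ)) (Real.pi : ℂ) :=
    isAlgebraic_algebraMap (⟨(Real.pi : ℂ), IntermediateField.subset_adjoin _ _ ⟨0, rfl⟩⟩ :
      IntermediateField.adjoin baseField (range fun _ : Fin 1 => (Real.pi : ℂ)))
  have h := names_le (fun _ : Fin 1 => (Real.pi : ℂ)) {θ | AlgebraicOverAnd (fun _ : Fin 1 => (Real.pi : ℂ)) (θ : ℂ)}
    (fun θ hθ => hθ)
  let g : Option (ℝ × ℝ) → Fin 1 ⊕ (ℝ × ℝ) := fun o => o.elim (Sum.inl 0) fun p => Sum.inr p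
  have hg : Function.Injective g := by
    intro a b hab
    cases a <;> cases b <;> simp_all [g]
  have h2 : g '' {o ∈ names | AlgebraicOver (number o)} ⊆ algebraicNames (fun _ : Fin 1 => (Real.pi : ℂ))
      {θ | AlgebraicOverAnd (fun _ : Fin 1 => (Real.pi : ℂ)) (θ : ℂ)} := by
    rintro _ ⟨o, ho, rfl⟩
    cases o with
    | none => exact ho.2
    | some p => exact ⟨alg_mult (ho.1 p rfl) _ hy, piPairs_sub (ho.1 p rfl), ho.2⟩
  calc _ = (g '' {o ∈ names | AlgebraicOver (number o)}).encard := (hg.encard_image _).symm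
    _ ≤ _ := encard_le_encard h2
    _ ≤ 1 := by exact_mod_cast h

/-- if `e` and `v` are algebraically dependent then `v` is algebraic over the base field -/
theorem over_of_dep {v : ℝ} (h : ¬ AlgebraicIndependent ℚ ![Real.exp 1, v]) : AlgebraicOver v := by
  by_contra hv
  refine h ?_
  have h1 : AlgebraicIndependent ℚ (fun _ : Unit => Complex.exp 1) := by
    rw [algebraicIndependent_unique_type_iff]
    intro h2
    refine Pool.Agent.H699R2.exp_one_not_algebraic ?_
    have h3 : IsAlgebraic ℚ ((Real.exp 1 : ℝ) : ℂ) := by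
      rw [Complex.ofReal_exp, Complex.ofReal_one]
      exact h2
    exact (isAlgebraic_algebraMap_iff (algebraMap ℝ ℂ).injective).1 h3
  have h2 := (h1.option_iff_transcendental (v : ℂ)).2 (by
    have hle : Algebra.adjoin ℚ (range fun _ : Unit => Complex.exp 1) ≤ baseField.toSubalgebra := by
      refine Algebra.adjoin_le ?_
      rintro _ ⟨_, rfl⟩
      exact exp_mem
    exact Transcendental.of_tower_top_of_subalgebra_le hle hv)
  have h3 := h2.comp (![some (), none] : Fin 2 → Option Unit) (by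
    intro a b hab
    fin_cases a <;> fin_cases b <;> simp_all)
  have h4 : ((fun o : Option Unit => o.elim (v : ℂ) fun _ => Complex.exp 1) ∘ (![some (), none] : Fin 2 → Option Unit)) =
      ((Algebra.ofId ℝ ℂ).restrictScalars ℚ) ∘ ![Real.exp 1, v] := by
    funext a
    fin_cases a
    · show Complex.exp 1 = ((Real.exp 1 : ℝ) : ℂ)
      rw [Complex.ofReal_exp, Complex.ofReal_one]
    · rfl
  rw [h4] at h3
  exact AlgebraicIndependent.of_comp _ h3

/-- if one of the four numbers is algebraic then `v` is algebraic over the base field -/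
theorem over_of_special {v : ℝ} (h : Special v) : AlgebraicOver v := by
  have he : AlgebraicOver (Real.exp 1 : ℝ) := by
    unfold AlgebraicOver
    rw [Complex.ofReal_exp, Complex.ofReal_one]
    exact isAlgebraic_algebraMap (⟨_, exp_mem⟩ : baseField)
  have hh : ∀ x : ℝ, IsAlgebraic ℚ x → AlgebraicOver (x : ℂ) := fun x hx =>
    (hx.algebraMap (A := ℂ)).extendScalars (FaithfulSMul.algebraMap_injective ℚ baseField)
  have h0 : Real.exp 1 ≠ 0 := (Real.exp_pos 1).ne'
  unfold AlgebraicOver at he hh ⊢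
  rcases h with h | h | h | h
  · have e : (v : ℂ) = ((v + Real.exp 1 : ℝ) : ℂ) - (Real.exp 1 : ℝ) := by push_cast; ring
    rw [e]
    exact (hh _ h).sub he
  · have e : (v : ℂ) = ((v - Real.exp 1 : ℝ) : ℂ) + (Real.exp 1 : ℝ) := by push_cast; ring
    rw [e]
    exact (hh _ h).add he
  · have e : (v : ℂ) = ((v * Real.exp 1 : ℝ) : ℂ) * ((Real.exp 1 : ℝ) : ℂ)⁻¹ := by
      rw [← Complex.ofReal_inv, ← Complex.ofReal_mul, mul_inv_cancel_right₀ h0]
    rw [e]
    exact (hh _ h).mul he.inv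
  · have e : (v : ℂ) = ((v / Real.exp 1 : ℝ) : ℂ) * (Real.exp 1 : ℝ) := by
      rw [← Complex.ofReal_mul, div_mul_cancel₀ _ h0]
    rw [e]
    exact (hh _ h).mul he

theorem over_pi_mult (h : AlgebraicOver Real.pi) {p : ℝ × ℝ} (hp : p ∈ piPairs) : AlgebraicOver (p.2 : ℂ) := by
  obtain ⟨_, _, _, _, ⟨q, hq⟩⟩ := hp
  rw [hq]
  push_cast
  exact IsAlgebraic.mul (by
    have : (q : ℂ) = algebraMap ℚ ℂ q := by simp
    rw [this]
    exact isAlgebraic_algebraMap (R := baseField) (algebraMap ℚ _ q)) h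

theorem indep (h : AlgebraicOver Real.pi) :
    AlgebraicIndependent baseField (fun p : piPairs => ((P p.1.1 p.1.2 : ℝ) : ℂ)) := by
  have h1 := Pool.Agent.N13.PF.ai_P {θ | AlgebraicOver (θ : ℂ)} (fun θ hθ => (over_iff _).1 hθ)
  rw [baseField_eq, P_eq]
  exact h1.comp (fun p : piPairs => (⟨p.1, piPairs_sub p.2, over_pi_mult h p.2⟩ :
    {p : ℝ × ℝ // p ∈ Pool.Agent.N13.PF.Nm ∧ p.2 ∈ {θ : ℝ | AlgebraicOver (θ : ℂ)}})) (by
    intro a b hab
    exact Subtype.ext (congrArg (fun q => q.1) hab))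

theorem result :
    -- (1)
    (∀ φ : ℝ, 0 < φ → φ ≤ Real.pi / 2 → P 0 φ = 2 * φ) ∧
    (∀ y : ℝ, 0 ≤ y → P y (Real.pi / 2) = Real.pi * Real.exp (-y)) ∧
    -- (2)
    {o ∈ names | AlgebraicOver (number o)}.encard ≤ 1 ∧
    {o ∈ names | ¬ AlgebraicIndependent ℚ ![Real.exp 1, number o] ∨ Special (number o)}.encard ≤ 1 ∧
    -- (3)
    (AlgebraicOver Real.pi ∨ Special Real.pi →
      AlgebraicIndependent baseField (fun p : piPairs => ((P p.1.1 p.1.2 : ℝ) : ℂ))) ∧
    -- (4)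
    ∀ (r : ℕ) (z : Fin r → ℂ) (Φ : Set ℝ), (∀ φ ∈ Φ, AlgebraicOverAnd z (φ : ℂ)) →
      (algebraicNames z Φ).encard ≤ (r : ℕ∞) ∧
      ∀ A : Finset (ℝ × ℝ), (∀ p ∈ A, p.2 ∈ Φ ∧ p ∈ pairs) →
        (A.card : Cardinal) ≤ Algebra.trdeg baseField (IntermediateField.adjoin baseField
          (range z ∪ (fun p : ℝ × ℝ => ((P p.1 p.2 : ℝ) : ℂ)) '' (A : Set (ℝ × ℝ)))) := by
  have hs1 : {o ∈ names | ¬ AlgebraicIndependent ℚ ![Real.exp 1, number o] ∨ Special (number o)} ⊆
      {o ∈ names | AlgebraicOver (number o)} := by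
    rintro o ⟨ho, h | h⟩
    · exact ⟨ho, over_of_dep h⟩
    · exact ⟨ho, over_of_special h⟩
  refine ⟨fun φ h0 h1 => Pool.Agent.N13.PF.P_zero h0 h1, fun y hy => Pool.Agent.N13.PF.P_full y hy, one_le,
    (encard_le_encard hs1).trans one_le, ?_, fun r y Θ hΘ => ⟨names_le y Θ hΘ, fun A hA => ?_⟩⟩
  · rintro (h | h)
    · exact indep h
    · exact indep (over_of_special h)
  · rw [baseField_eq, P_eq]
    exact Pool.Agent.N13.PF.trdeg y Θ (fun θ hθ => (overAnd_iff _ _).1 (hΘ θ hθ)) A fun p hp => ⟨(hA p hp).2, (hA p hp).1⟩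

end Pool.Agent.Results.MP_a2f59b_nt.TruncatedFourierIntegrals
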