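import Mathlib
import Pool.Agent.N778.AF.Big2

set_option autoImplicit false

/-!
# `π` and incomplete zeta integrals over a field generated by `e` and values of E-functions

For rational numbers `a`, `x` and `l ≥ 1` let `E_{a,l}(x) = ∑_{m ≥ 1} (-1)^(m+1) x^m / (m! (m + a)^l)`. Let `M` be the field
generated by `e` and all the numbers `E_{a,l}(x)`, `x > 0`, where `0 < a < 1`, `l ≥ 1` or `a = 0`, `l = 1`.

For an even integer `k ≥ 2` let `ω = exp (2 π i / k)`. For a rational number `x ≥ 0` let `R_k(x)` be the integral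
`1 / k! * ∫ (∑_j ω^j log t_j)^k exp (-∑_j t_j) dt` over the part `(0, ∞)^k \ (0, x)^k` of the octant.

(1) `R_k(x)` is real, `R_k(0) = ζ(k)`.

The names are `pi` and `tail k x`, where `k ≥ 2` is even and `x > 0` is rational, with the values `v = π` and `R_k(x)`.

(2) Let `i` be a name and `N` a finite set of other names, `B` a finite set of triples `(a, l, x)` as above. For every `D`
there are `κ` and `c > 0` such that for all `H ≥ 1` and all nonzero integral polynomials `Q`, `P` of degree at most `D` and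
with coefficients at most `H` in absolute value
`|Q(e, (E_b), v_i)| ≥ c / H ^ κ` or `|P(e, (E_b), (v_j))| ≥ c / H ^ κ` (`b ∈ B`, `j ∈ N`).
So if at the scale `H` the number `π + e` (or `π - e`, `π e`, `π / e`) is near a rational number, or `π` is near a number
algebraic over `ℚ(e, (E_b))`, then `e`, the `E_b` and the `R_k(x)` do not satisfy any relation approximately.

(3) Let `i` be a name such that one of the numbers `v_i`, `v_i + e`, `v_i - e`, `v_i e`, `v_i / e` is algebraic over `M` or a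
Liouville number. Then the values of all the other names are algebraically independent over `M`. In particular this
holds for the numbers `R_k(x)` if one of `π + e`, `π - e`, `π e`, `π / e` is algebraic over `M` or a Liouville number.
-/

namespace Pool.Agent.Results.MP_a2f59b_nt.ZetaTailsOverBigField

open Set MeasureTheory

/-- the zeta value `ζ(s) = ∑ 1 / n^s` -/
noncomputable def zeta (s : ℕ) : ℝ := ∑' n : ℕ, 1 / ((n : ℝ) + 1) ^ s

/-- `ω = exp (2 π i / k)` -/
noncomputable def root (k : ℕ) : ℂ := Complex.exp (2 * Real.pi * Complex.I / k)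

/-- `(∑_j ω^j log t_j)^k exp (-∑_j t_j)` -/
noncomputable def integrand (k : ℕ) (t : Fin k → ℝ) : ℂ :=
  (∑ j : Fin k, root k ^ (j : ℕ) * (Real.log (t j) : ℂ)) ^ k * ((Real.exp (-∑ j, t j) : ℝ) : ℂ)

/-- `(0, ∞)^k \ (0, x)^k` -/
def rest (k : ℕ) (x : ℝ) : Set (Fin k → ℝ) := {t | (∀ j, 0 < t j) ∧ ∃ j, x ≤ t j}

/-- `R_k(x)`, as a complex number -/
noncomputable def tailIntegral (k : ℕ) (x : ℚ) : ℂ := 1 / k.factorial * ∫ t in rest k x, integrand k t

/-- `R_k(x)`, as a real number -/
noncomputable def R (k : ℕ) (x : ℚ) : ℝ := (tailIntegral k x).re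

/-- `E_{a,l}(x) = ∑_{m ≥ 1} (-1)^(m+1) x^m / (m! (m + a)^l)` -/
noncomputable def E (a : ℚ) (l : ℕ) (x : ℚ) : ℝ :=
  ∑' m : ℕ, (-1) ^ m * (x : ℝ) ^ (m + 1) / ((m + 1).factorial * ((m : ℝ) + 1 + a) ^ l)

/-- the triples `(a, l, x)`, `x > 0`, where `0 < a < 1`, `l ≥ 1` or `a = 0`, `l = 1` -/
def BaseValid (b : ℚ × ℕ × ℚ) : Prop := (b.1 = 0 ∧ b.2.1 = 1 ∨ 0 < b.1 ∧ b.1 < 1 ∧ 1 ≤ b.2.1) ∧ 0 < b.2.2

/-- the field `M` -/
noncomputable def bigField : IntermediateField ℚ ℝ :=
  IntermediateField.adjoin ℚ ({Real.exp 1} ∪ {z | ∃ (a : ℚ) (l : ℕ) (x : ℚ), BaseValid (a, l, x) ∧ z = E a l x})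

/-- the names of the numbers -/
inductive Name : Type
  /-- `π` -/
  | pi : Name
  /-- `R_k(x)` -/
  | tail (k : ℕ) (x : ℚ) : Name

/-- the numbers -/
noncomputable def value : Name → ℝ
  | .pi => Real.pi
  | .tail k x => R k x

/-- the names that are considered: `k ≥ 2` is even, `x > 0` -/
def Valid : Name → Prop
  | .pi => True
  | .tail k x => (2 ≤ k ∧ Even k) ∧ 0 < x

/-- one of the numbers `v`, `v + e`, `v - e`, `v e`, `v / e` is algebraic over `M` or a Liouville number -/
def Special (v : ℝ) : Prop :=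
  ∃ z : ℝ, (z = v ∨ z = v + Real.exp 1 ∨ z = v - Real.exp 1 ∨ z = v * Real.exp 1 ∨ z = v / Real.exp 1) ∧
    (IsAlgebraic bigField z ∨ Liouville z)

/-- the height of the polynomial `P` is at most `H` -/
def HeightLE {σ : Type} (P : MvPolynomial σ ℤ) (H : ℝ) : Prop := ∀ s, |((P.coeff s : ℤ) : ℝ)| ≤ H

/-- the numbers `e` and `E_b`, `b ∈ B` -/
noncomputable def base (B : Finset (ℚ × ℕ × ℚ)) : Option B → ℝ
  | none => Real.exp 1
  | some b => E b.1.1 b.1.2.1 b.1.2.2

/-- For every `D` there are `κ` and `c > 0` such that for all nonzero integral polynomials `Q` and `P` of degree at most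
`D` and height at most `H`, `H ≥ 1`, one of the numbers `Q(e, (E_b), v_i)`, `P(e, (E_b), (v_j))` is at least `c / H ^ κ`
in absolute value. -/
def Dichotomy (B : Finset (ℚ × ℕ × ℚ)) (i : Name) (N : Finset Name) : Prop :=
  ∀ D : ℕ, ∃ κ : ℕ, ∃ c : ℝ, 0 < c ∧ ∀ (Q : MvPolynomial (Option B ⊕ Unit) ℤ) (P : MvPolynomial (Option B ⊕ N) ℤ),
    Q ≠ 0 → P ≠ 0 → Q.totalDegree ≤ D → P.totalDegree ≤ D → ∀ H : ℝ, 1 ≤ H → HeightLE Q H → HeightLE P H →
      c / H ^ κ ≤ |MvPolynomial.aeval (Sum.elim (base B) (fun _ : Unit => value i)) Q| ∨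
        c / H ^ κ ≤ |MvPolynomial.aeval (Sum.elim (base B) (fun j : N => value j)) P|

open Pool.Agent.N778.AF (BN NV VV BOK Bv θB eB θB_eB MS UN big_dich big_all rename_ne rename_ht)
open Pool.Agent.R352.E (clF mem_clF subset_clF clF_mono clF_le)

theorem rest_eq (k : ℕ) (x : ℝ) :
    rest k x = Pool.Agent.R352.Q.cube k (Ioi 0) \ Pool.Agent.R352.Q.cube k (Ioo 0 x) := by
  ext t
  simp only [rest, Pool.Agent.R352.Q.cube, mem_sdiff, mem_univ_pi, mem_Ioi, mem_Ioo]
  constructor
  · rintro ⟨h1, j, h2⟩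
    exact ⟨h1, fun h => absurd (h j).2 (not_lt.2 h2)⟩
  · rintro ⟨h1, h2⟩
    push Not at h2
    obtain ⟨j, hj⟩ := h2
    exact ⟨h1, j, hj (h1 j)⟩

theorem tailIntegral_NI {k : ℕ} (hk : Even k) (x : ℚ) (S : Set (Fin k → ℝ)) (hS : rest k x = S) :
    tailIntegral k x = Pool.Agent.R352.Q.NI k S := by
  rw [tailIntegral, hS, Pool.Agent.R352.Q.NI, hk.neg_one_pow]
  rfl

theorem tailIntegral_eq {k : ℕ} (hk : 2 ≤ k) (hk' : Even k) {x : ℚ} (hx : 0 < x) :
    tailIntegral k x = (Pool.Agent.R352.Q.Rk k x : ℂ) := by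
  have hx' : (0 : ℝ) < x := by exact_mod_cast hx
  rw [tailIntegral_NI hk' x _ (rest_eq k x), Pool.Agent.R352.Q.NI_diff, Pool.Agent.R352.Q.NI_full hk,
    Pool.Agent.R352.Q.NI_box hk hx', Pool.Agent.R352.Q.Rk]
  push_cast
  rfl

theorem tailIntegral_zero {k : ℕ} (hk : 2 ≤ k) (hk' : Even k) : tailIntegral k 0 = (zeta k : ℂ) := by
  have h1 : rest k ((0 : ℚ) : ℝ) = Pool.Agent.R352.Q.cube k (Ioi 0) := by
    ext t
    simp only [rest, Pool.Agent.R352.Q.cube, mem_univ_pi, mem_Ioi, Rat.cast_zero]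
    constructor
    · rintro ⟨h1, -⟩
      exact h1
    · intro h
      exact ⟨h, ⟨0, by omega⟩, (h _).le⟩
  rw [tailIntegral_NI hk' 0 _ h1, Pool.Agent.R352.Q.NI_full hk]
  rfl

theorem R_eq {k : ℕ} (hk : 2 ≤ k) (hk' : Even k) {x : ℚ} (hx : 0 < x) : R k x = Pool.Agent.R352.Q.Rk k x := by
  rw [R, tailIntegral_eq hk hk' hx, Complex.ofReal_re]

theorem E_eq (b : ℚ × ℕ × ℚ) : E b.1 b.2.1 b.2.2 = Bv b := by
  rw [E, Bv, Pool.Agent.R352.T.EA]
  congr 1
  funext m
  rw [neg_pow (b.2.2 : ℝ) (m + 1), pow_succ (-1 : ℝ) m]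
  ring

/-- the translation of the names -/
def enc : Name → BN
  | .pi => Sum.inl 0
  | .tail k x => Sum.inr (k, x)

theorem enc_injective : Function.Injective enc := by
  intro i j h
  cases i <;> cases j <;> simp_all [enc]

theorem enc_valid {i : Name} (h : Valid i) : NV (enc i) := by
  cases i with
  | pi => exact trivial
  | tail k x => exact ⟨⟨h.1.2, h.1.1⟩, h.2⟩

theorem enc_value {i : Name} (h : Valid i) : VV (enc i) = value i := by
  cases i with
  | pi => rfl
  | tail k x => exact (R_eq h.1.1 h.1.2 h.2).symm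

theorem bigField_eq : bigField = IntermediateField.adjoin ℚ MS := by
  rw [bigField]
  congr 1
  ext z
  constructor
  · rintro (hz | ⟨a, l, x, hb, rfl⟩)
    · exact ⟨none, (mem_singleton_iff.1 hz).symm⟩
    · exact ⟨some ⟨(a, l, x), hb⟩, (E_eq (a, l, x)).symm⟩
  · rintro ⟨o, rfl⟩
    cases o with
    | none => exact Or.inl rfl
    | some b => exact Or.inr ⟨b.1.1, b.1.2.1, b.1.2.2, b.2, (E_eq b.1).symm⟩

theorem first (B : Finset (ℚ × ℕ × ℚ)) (i : Name) (N : Finset Name) (hB : ∀ b ∈ B, BaseValid b) (hi : Valid i)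
    (hN : ∀ j ∈ N, Valid j) (hiN : i ∉ N) : Dichotomy B i N := by
  classical
  have key := big_dich B hB (enc i) (N.map ⟨enc, enc_injective⟩) (enc_valid hi) (by
    intro j hj
    obtain ⟨j', hj', rfl⟩ := Finset.mem_map.1 hj
    exact enc_valid (hN j' hj')) (by
    intro h
    obtain ⟨j', hj', h1⟩ := Finset.mem_map.1 h
    have h2 : j' = i := enc_injective h1
    exact hiN (h2 ▸ hj'))
  intro D
  obtain ⟨k, c, hc, h1⟩ := key D
  refine ⟨k, c, hc, fun Q P hQ hP hQD hPD H hH hQH hPH => ?_⟩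
  have hHk : 0 < H ^ k := by positivity
  let f : Option B ⊕ Unit → Fin (B.card + 1 + 1) := Sum.elim (fun o => (eB B o).succ) (fun _ => 0)
  let g : Option B ⊕ N → Fin (B.card + 1) ⊕ (N.map ⟨enc, enc_injective⟩ : Finset BN) :=
    Sum.map (eB B) (fun j => ⟨enc j.1, Finset.mem_map_of_mem _ j.2⟩)
  have hf : Function.Injective f := by
    rintro (a | a) (b | b) hab
    · simp only [f, Sum.elim_inl, Fin.succ_inj] at hab
      rw [(eB B).injective hab]
    · simp [f] at hab
    · simp only [f, Sum.elim_inl, Sum.elim_inr] at hab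
      exact absurd hab.symm (Fin.succ_ne_zero _)
    · rfl
  have hg : Function.Injective g := by
    refine Function.Injective.sumMap (eB B).injective ?_
    intro a b hab
    exact Subtype.ext (enc_injective (congrArg Subtype.val hab))
  have hbase : ∀ o : Option B, θB B (eB B o) = base B o := by
    intro o
    have h2 := congrFun (θB_eB B) o
    rw [Function.comp_apply] at h2
    rw [h2]
    cases o with
    | none => rfl
    | some b => exact (E_eq b.1).symm
  have hef : (Fin.cons (VV (enc i)) (θB B) : Fin (B.card + 1 + 1) → ℝ) ∘ f =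
      Sum.elim (base B) (fun _ : Unit => value i) := by
    funext s
    rcases s with s | s
    · simp only [f, Function.comp_apply, Sum.elim_inl, Fin.cons_succ]
      exact hbase s
    · simp only [f, Function.comp_apply, Sum.elim_inr, Fin.cons_zero]
      exact enc_value hi
  have heg : Sum.elim (θB B) (fun j : (N.map ⟨enc, enc_injective⟩ : Finset BN) => VV j) ∘ g =
      Sum.elim (base B) (fun j : N => value j) := by
    funext s
    rcases s with s | s
    · exact hbase s
    · exact enc_value (hN _ s.2)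
  rcases h1 (fun _ => MvPolynomial.rename f Q) (MvPolynomial.rename g P) (fun _ => rename_ne hf hQ) (rename_ne hg hP)
    (fun _ => (MvPolynomial.totalDegree_rename_le _ _).trans hQD) ((MvPolynomial.totalDegree_rename_le _ _).trans hPD)
    H hH (fun _ => rename_ht hf hH hQH) (rename_ht hg hH hPH) with ⟨_, h2⟩ | h2
  · refine Or.inl ?_
    rw [MvPolynomial.aeval_rename, hef] at h2
    rw [div_le_iff₀ hHk, mul_comm]
    exact h2
  · refine Or.inr ?_
    rw [MvPolynomial.aeval_rename, heg] at h2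
    rw [div_le_iff₀ hHk, mul_comm]
    exact h2

theorem special {v : ℝ} (h : Special v) : v ∈ clF MS ∨ UN v := by
  obtain ⟨z, hz, hz' | hz'⟩ := h
  · left
    rw [bigField_eq] at hz'
    have hz2 : z ∈ clF MS := mem_clF.2 hz'
    have he : Real.exp 1 ∈ clF MS := subset_clF _ ⟨none, rfl⟩
    have he0 : Real.exp 1 ≠ 0 := (Real.exp_pos 1).ne'
    rcases hz with rfl | rfl | rfl | rfl | rfl
    · exact hz2
    · have := (clF MS).sub_mem hz2 he
      rwa [add_sub_cancel_right] at this
    · have := (clF MS).add_mem hz2 he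
      rwa [sub_add_cancel] at this
    · have := (clF MS).div_mem hz2 he
      rwa [mul_div_cancel_right₀ _ he0] at this
    · have := (clF MS).mul_mem hz2 he
      rwa [div_mul_cancel₀ _ he0] at this
  · right
    rcases hz with rfl | rfl | rfl | rfl | rfl
    · exact Pool.Agent.N778.AF.UN_of_liouville' hz'
    · exact Pool.Agent.N778.AF.UN_of_four (Or.inl hz')
    · exact Pool.Agent.N778.AF.UN_of_four (Or.inr (Or.inl hz'))
    · exact Pool.Agent.N778.AF.UN_of_four (Or.inr (Or.inr (Or.inl hz')))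
    · exact Pool.Agent.N778.AF.UN_of_four (Or.inr (Or.inr (Or.inr hz')))

theorem result :
    -- (1)
    (∀ k : ℕ, 2 ≤ k → Even k → (∀ x : ℚ, 0 ≤ x → tailIntegral k x = (R k x : ℂ)) ∧ R k 0 = zeta k) ∧
    -- (2)
    (∀ (B : Finset (ℚ × ℕ × ℚ)) (i : Name) (N : Finset Name), (∀ b ∈ B, BaseValid b) → Valid i → (∀ j ∈ N, Valid j) →
      i ∉ N → Dichotomy B i N) ∧
    -- (3)
    (∀ i : Name, Valid i → Special (value i) →
      AlgebraicIndependent bigField (fun j : {j : Name // Valid j ∧ j ≠ i} => value j)) := by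
  have h0 : ∀ k : ℕ, 2 ≤ k → Even k → R k 0 = zeta k := by
    intro k hk hk'
    rw [R, tailIntegral_zero hk hk', Complex.ofReal_re]
  refine ⟨fun k hk hk' => ⟨fun x hx => ?_, h0 k hk hk'⟩, first, fun i hi hs => ?_⟩
  · rcases hx.eq_or_lt with hx0 | hx0
    · rw [← hx0, h0 k hk hk', tailIntegral_zero hk hk']
    · rw [R, tailIntegral_eq hk hk' hx0, Complex.ofReal_re]
  · rw [bigField_eq]
    have h1 := big_all (enc i) (enc_valid hi) (by
      rw [enc_value hi]
      exact special hs)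
    have h2 := h1.comp (fun j : {j : Name // Valid j ∧ j ≠ i} =>
      (⟨enc j.1, enc_valid j.2.1, fun h => j.2.2 (enc_injective h)⟩ : {j : BN // NV j ∧ j ≠ enc i})) (by
      intro a b hab
      exact Subtype.ext (enc_injective (congrArg Subtype.val hab)))
    convert h2 using 1
    funext j
    exact (enc_value j.2.1).symm

end Pool.Agent.Results.MP_a2f59b_nt.ZetaTailsOverBigField
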